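import Pool.Agent.helper74.Jos.MonMap

set_option autoImplicit false

/-!
# The surfaces `Σ_±` of the Josephson model are the complexified boundary families

We prove the full positive answer to Q1: for each sign the surface `Σ_± = {Mon(±i) = ±i}` in
`U = {(B, A, r) ∈ ℂ³ : r ≠ 0}` is the union of the smallest complex analytic subsets of `U`
containing the even and the odd boundary family of the phase-lock areas.

Idea of the proof.

* Put `β = r B`.  For real `A` and `r > 0` the boundary value problem `Φ(0) = Φ(2π) = ± i` for the
  linearised system is self-adjoint with spectral parameter `β`, so over real `(A, r)` all points of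
  `Σ_±` have real `B` (`im_eq_zero`).  These real points are exactly boundary points of phase-lock
  areas (`side`, `mem_frontier_of`).
* For `(A, r)` in a compact set the zeros `β` cannot cross the boundary of the square
  `|Re β|, |Im β| ≤ n/2 + 1/4`, `n` large (`asym_bound`, `no_zero_boundary`).
* Given `(B₀, A₀, r₀) ∈ Σ_±` take `A(t) = Re A₀ + t Im A₀`, `r(t) = exp (Re c + t Im c)`,
  `c = log r₀`.  For real `t` these are real with `r(t) > 0`, and `(A, r)(i) = (A₀, r₀)`.
  If `Z` is an analytic set containing all real points of `Σ_±`, then the set of `t` over which all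
  zeros in the square belong to `Z` is open and closed: locally `F` divides `g ^ m` for each of the
  equations `g` of `Z`, the quotient being given by a Cauchy integral (`division_lemma`).
* The multiplier of the fixed direction is `± 1` on `Σ_±` and it is `(-1)^s` on `∂L_s`; this
  separates the even and the odd part.
-/

namespace Pool.Agent.Results.MP_62978e_an.SigmaIsHull

open Set Pool.Agent.Josephson

theorem result (ε : ℝ) (hε : ε = 1 ∨ ε = -1) :
    ∃ Zeven Zodd : Set P,
      IsAnalyticHull (boundaryFamily ε Even) Zeven ∧
      IsAnalyticHull (boundaryFamily ε Odd) Zodd ∧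
      Zeven ∪ Zodd = Sigma ε ∧
      Disjoint Zeven Zodd :=
  ⟨SigmaPart ε 1, SigmaPart ε (-1), hull_even hε, hull_odd hε, (Sigma_eq hε).symm,
    SigmaPart_disjoint ε⟩

end Pool.Agent.Results.MP_62978e_an.SigmaIsHull
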